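import Pool.Agent.Run7.h824.GK.Tz

/-!
# GK: the piece IN2 (and INF)
-/

set_option autoImplicit false

namespace Run7.h824.GK

open Polynomial Finset Run7.h400.GK

section hth

variable {E : Type} [Field E] {q : ℕ}

/-- the functional equation as an identity of power series -/
lemma hth_expand (hH : S_HTH) (hq : 2 ≤ q) (t : E) :
    Hth q t = (1 - PowerSeries.C t * PowerSeries.X) * PowerSeries.expand q (by omega) (Hth q t) := by
  have h1 := (hH E q {t} hq).2
  rw [Multiset.map_singleton, Multiset.prod_singleton, Multiset.map_singleton, Multiset.prod_singleton,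
    Multiset.card_singleton] at h1
  ext m
  rw [h1 m, sub_mul, one_mul, map_sub, mul_assoc, PowerSeries.coeff_C_mul, PowerSeries.coeff_expand]
  have hq0 : 0 < q := by omega
  -- the term `j = m / q`
  have h2 : ∀ j ∈ range (m / q + 1), j ≠ m / q →
      (if m - q * j ≤ 1 then ((X - C t : E[X])).coeff (1 - (m - q * j)) else 0) * PowerSeries.coeff j (Hth q t) = 0 := by
    intro j hj hne
    rw [mem_range] at hj
    have h3 : j + 1 ≤ m / q := by omega
    have h4 : q * (j + 1) ≤ m := (Nat.mul_le_mul_left q h3).trans (Nat.mul_div_le m q)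
    rw [if_neg (by rw [mul_add, mul_one] at h4; omega), zero_mul]
  rw [Finset.sum_eq_single (m / q) h2 (fun h => absurd (mem_range.2 (Nat.lt_succ_self _)) h)]
  have h5 : m - q * (m / q) = m % q := by
    have := Nat.div_add_mod m q
    omega
  rw [h5]
  have hX : PowerSeries.coeff m (PowerSeries.X * PowerSeries.expand q (by omega) (Hth q t)) =
      if m % q = 1 then PowerSeries.coeff (m / q) (Hth q t) else 0 := by
    rcases m with _ | m
    · rw [PowerSeries.coeff_zero_X_mul, if_neg (by simp)]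
    · rw [PowerSeries.coeff_succ_X_mul, PowerSeries.coeff_expand]
      by_cases h6 : q ∣ m
      · obtain ⟨c, rfl⟩ := h6
        have h7 : (q * c + 1) % q = 1 := by
          rw [Nat.mul_add_mod, Nat.mod_eq_of_lt (by omega)]
        have h8 : (q * c + 1) / q = c := by
          rw [Nat.mul_add_div hq0, Nat.div_eq_of_lt (by omega), add_zero]
        rw [if_pos (Dvd.intro _ rfl), if_pos h7, h8, Nat.mul_div_cancel_left _ hq0]
      · rw [if_neg h6, if_neg]
        intro h7
        apply h6
        have h8 := Nat.div_add_mod (m + 1) q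
        exact ⟨(m + 1) / q, by omega⟩
  rw [hX]
  by_cases h0 : m % q = 0
  · rw [h0, if_pos (by norm_num), if_pos (Nat.dvd_of_mod_eq_zero h0), if_neg (by norm_num), mul_zero, sub_zero]
    simp
  · by_cases h1' : m % q = 1
    · rw [h1', if_pos le_rfl, if_neg (fun h => h0 (Nat.mod_eq_zero_of_dvd h)), if_pos rfl]
      simp
    · rw [if_neg (by omega), if_neg (fun h => h0 (Nat.mod_eq_zero_of_dvd h)), if_neg h1']
      simp

/-- iteration of the functional equation -/
lemma hth_iter (hH : S_HTH) (hq : 2 ≤ q) (t : E) (j : ℕ) (hj : q ^ j ≠ 0) :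
    Hth q t = (∏ l ∈ range j, (1 - PowerSeries.C t * PowerSeries.X ^ (q ^ l))) *
      PowerSeries.expand (q ^ j) hj (Hth q t) := by
  induction j with
  | zero =>
    rw [Finset.prod_range_zero, one_mul]
    have : ∀ (n : ℕ) (hn : n ≠ 0), n = 1 → Hth q t = PowerSeries.expand n hn (Hth q t) := by
      rintro n hn rfl
      rw [PowerSeries.expand_one_apply]
    exact this _ _ (pow_zero q)
  | succ j ih =>
    have hq0 : q ≠ 0 := by omega
    have hj' : q ^ j ≠ 0 := pow_ne_zero _ hq0
    have h1 : PowerSeries.expand (q ^ j) hj' (Hth q t) = (1 - PowerSeries.C t * PowerSeries.X ^ (q ^ j)) *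
        PowerSeries.expand (q ^ (j + 1)) hj (Hth q t) := by
      have h2 := congrArg (PowerSeries.expand (q ^ j) hj') (hth_expand hH hq t)
      rw [map_mul, map_sub, map_one, map_mul, PowerSeries.expand_C, PowerSeries.expand_X, ← PowerSeries.expand_mul] at h2
      exact h2
    rw [Finset.prod_range_succ, mul_assoc, ← h1]
    exact ih hj'

/-- the tail is close to `1` -/
lemma sb_tail (hH : S_HTH) (hq : 2 ≤ q) (t : E) (n : ℕ) (hn : n ≠ 0) :
    Sm (n : ℤ) (sb q (PowerSeries.expand n hn (Hth q t)) - 1) := by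
  have hc0 : PowerSeries.coeff 0 (Hth q t) = 1 := by
    have := (hH E q {t} hq).1
    rw [Multiset.map_singleton, Multiset.prod_singleton] at this
    rwa [PowerSeries.coeff_zero_eq_constantCoeff_apply]
  intro i hi
  rw [HahnSeries.coeff_sub]
  unfold sb
  by_cases hneg : i < 0
  · have h1 : (HahnSeries.ofPowerSeries ℤ E (PowerSeries.mk fun m => if (q - 1) ∣ m then (-1) ^ (m / (q - 1)) *
        PowerSeries.coeff (m / (q - 1)) (PowerSeries.expand n hn (Hth q t)) else 0)).coeff i = 0 := by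
      rw [HahnSeries.ofPowerSeries_apply]
      refine HahnSeries.embDomain_of_notMem_range ?_
      rintro ⟨m, hm⟩
      have : (m : ℤ) = i := hm
      omega
    rw [h1, HahnSeries.coeff_one, if_neg (by omega), sub_zero]
  · obtain ⟨m, rfl⟩ := Int.eq_ofNat_of_zero_le (not_lt.1 hneg)
    have h2 := HahnSeries.ofPowerSeries_apply_coeff (Γ := ℤ) (PowerSeries.mk fun m => if (q - 1) ∣ m then (-1) ^ (m / (q - 1)) *
        PowerSeries.coeff (m / (q - 1)) (PowerSeries.expand n hn (Hth q t)) else 0) m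
    rw [show ((m : ℕ) : ℤ) = ((m : ℕ) : ℤ) from rfl] at h2
    rw [h2, PowerSeries.coeff_mk, HahnSeries.coeff_one]
    have hmn : m < n := by exact_mod_cast hi
    rcases Nat.eq_zero_or_pos m with rfl | hm
    · rw [if_pos (dvd_zero _), Nat.zero_div, pow_zero, one_mul, PowerSeries.coeff_expand, if_pos (dvd_zero _), Nat.zero_div,
        hc0]
      simp
    · rw [if_neg (by omega : ¬ ((m : ℤ) = 0)), sub_zero]
      split_ifs with h3
      · have h4 : ¬ n ∣ m / (q - 1) := by
          intro h5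
          have h6 : 0 < m / (q - 1) := by
            obtain ⟨c, rfl⟩ := h3
            have hq1 : 0 < q - 1 := by omega
            rw [Nat.mul_div_cancel_left _ hq1]
            exact Nat.pos_of_mul_pos_left hm
          have h7 := Nat.le_of_dvd h6 h5
          have h8 := Nat.div_le_self m (q - 1)
          omega
        rw [PowerSeries.coeff_expand, if_neg h4, mul_zero]
      · rfl

end hth

section frob

variable {Fq E K : Type} [Field Fq] [Fintype Fq] [Field E] [Fintype E] [Algebra Fq E] [Field K] [Algebra E K]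
  {q d : ℕ}

omit [Fintype E] in
lemma neg_one_pow_q (hq : q = Fintype.card Fq) (l : ℕ) : (-1 : E) ^ (q ^ l) = -1 := by
  have h1 : (-1 : Fq) ^ (q ^ l) = -1 := by
    rw [hq]
    exact FiniteField.pow_card_pow l (-1 : Fq)
  have := congrArg (algebraMap Fq E) h1
  simpa using this

/-- `λ(θ a) = T λ(a) + λ(a)^q` -/
lemma lam_theta (hq : q = Fintype.card Fq) (hd : Fintype.card E = q ^ d) (θ : E) (T : K) (g : ℕ → K)
    (hg : ∀ i, g i ^ q = (algebraMap E K (θ ^ (q ^ (i + 1))) - T) * g (i + 1)) (hgd : g d = g 0) (a : E) :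
    lam q d g (θ * a) = T * lam q d g a + lam q d g a ^ q := by
  let _ : Algebra Fq K := ((algebraMap E K).comp (algebraMap Fq E)).toAlgebra
  have hper : ∀ x : E, x ^ (q ^ d) = x := by
    intro x
    rw [← hd]
    exact FiniteField.pow_card x
  have h1 : lam q d g a ^ q = ∑ i ∈ range d, algebraMap E K (a ^ (q ^ (i + 1))) *
      ((algebraMap E K (θ ^ (q ^ (i + 1))) - T) * g (i + 1)) := by
    have h2 := map_sum (FiniteField.frobeniusAlgHom Fq K) (fun i => algebraMap E K (a ^ (q ^ i)) * g i) (range d)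
    simp only [FiniteField.coe_frobeniusAlgHom, ← hq] at h2
    unfold lam
    rw [h2]
    refine Finset.sum_congr rfl fun i _ => ?_
    rw [mul_pow, hg i, ← map_pow, ← pow_mul, ← pow_succ]
  set F : ℕ → K := fun i => algebraMap E K (a ^ (q ^ i)) * ((algebraMap E K (θ ^ (q ^ i)) - T) * g i) with hF
  have h3 : F d = F 0 := by
    simp only [hF]
    rw [hper, hper, hgd, pow_zero, pow_one, pow_one]
  have h4 : ∑ i ∈ range d, F (i + 1) = ∑ i ∈ range d, F i := by
    have h5 := Finset.sum_range_succ F d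
    have h6 := Finset.sum_range_succ' F d
    rw [h5, h3] at h6
    exact (add_right_cancel h6).symm
  have h5 : lam q d g a ^ q = ∑ i ∈ range d, F i := by
    rw [h1, ← h4]
  rw [h5]
  unfold lam
  rw [Finset.mul_sum, ← Finset.sum_add_distrib]
  refine Finset.sum_congr rfl fun i _ => ?_
  simp only [hF]
  rw [mul_pow, map_mul]
  ring

omit [Fintype E] in
lemma lam_add (hq : q = Fintype.card Fq) (g : ℕ → K) (a b : E) :
    lam q d g (a + b) = lam q d g a + lam q d g b := by
  have hadd : ∀ (i : ℕ) (x y : E), (x + y) ^ (q ^ i) = x ^ (q ^ i) + y ^ (q ^ i) := by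
    intro i x y
    induction i with
    | zero => simp
    | succ i ih =>
      rw [pow_succ, pow_mul, ih, pow_mul, pow_mul]
      have := map_add (FiniteField.frobeniusAlgHom Fq E) (x ^ (q ^ i)) (y ^ (q ^ i))
      simpa only [FiniteField.coe_frobeniusAlgHom, ← hq] using this
  unfold lam
  rw [← Finset.sum_add_distrib]
  refine Finset.sum_congr rfl fun i _ => ?_
  rw [hadd, map_add, add_mul]

omit [Fintype E] in
lemma lam_smul (hq : q = Fintype.card Fq) (g : ℕ → K) (c : Fq) (a : E) :
    lam q d g (algebraMap Fq E c * a) = algebraMap E K (algebraMap Fq E c) * lam q d g a := by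
  have hc : ∀ i : ℕ, c ^ (q ^ i) = c := by
    intro i
    rw [hq]
    exact FiniteField.pow_card_pow i c
  unfold lam
  rw [Finset.mul_sum]
  refine Finset.sum_congr rfl fun i _ => ?_
  rw [mul_pow, ← map_pow, hc, map_mul, mul_assoc]

/-- `λ(a)` is nonzero for nonzero `a` -/
lemma lam_ne (hq : q = Fintype.card Fq) (hd : Fintype.card E = q ^ d) (hd1 : 1 ≤ d) (θ : E) (T : K) (g : ℕ → K)
    (hsurj : ∀ x : E, ∃ p : Fq[X], aeval θ p = x) (hg0 : g 0 ≠ 0)
    (hg : ∀ i, g i ^ q = (algebraMap E K (θ ^ (q ^ (i + 1))) - T) * g (i + 1)) (hgd : g d = g 0) (a : E) (ha : a ≠ 0) :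
    lam q d g a ≠ 0 := by
  intro h0
  have hq2 : 2 ≤ q := by
    rw [hq]
    exact Fintype.one_lt_card
  have h1 : ∀ m : ℕ, lam q d g (θ ^ m * a) = 0 := by
    intro m
    induction m with
    | zero => rw [pow_zero, one_mul, h0]
    | succ m ih =>
      rw [pow_succ', mul_assoc, lam_theta hq hd θ T g hg hgd, ih, mul_zero, zero_pow (by omega), add_zero]
  have h2 : ∀ p : Fq[X], lam q d g (aeval θ p * a) = 0 := by
    intro p
    induction p using Polynomial.induction_on' with
    | add p r hp hr => rw [map_add, add_mul, lam_add hq, hp, hr, add_zero]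
    | monomial n c => rw [aeval_monomial, mul_assoc, lam_smul hq, h1, mul_zero]
  have h3 : ∀ z : E, lam q d g z = 0 := by
    intro z
    obtain ⟨p, hp⟩ := hsurj (z * a⁻¹)
    have := h2 p
    rwa [hp, mul_assoc, inv_mul_cancel₀ ha, mul_one] at this
  -- the polynomial
  set L : K[X] := ∑ i ∈ range d, C (g i) * X ^ (q ^ i) with hL
  have h4 : ∀ z : E, L.eval (algebraMap E K z) = 0 := by
    intro z
    rw [hL, eval_finsetSum, ← h3 z]
    unfold lam
    refine Finset.sum_congr rfl fun i _ => ?_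
    rw [eval_mul, eval_C, eval_pow, eval_X, map_pow, mul_comm]
  have h5 : L.natDegree < Fintype.card E := by
    rw [hd]
    have h6 : L.natDegree ≤ q ^ (d - 1) := by
      rw [hL]
      refine natDegree_sum_le_of_forall_le _ _ fun i hi => ?_
      rw [mem_range] at hi
      refine (natDegree_C_mul_X_pow_le _ _).trans ?_
      exact Nat.pow_le_pow_right (by omega) (by omega)
    exact h6.trans_lt (Nat.pow_lt_pow_right (by omega) (by omega))
  have h6 : L = 0 := by
    refine Polynomial.eq_zero_of_natDegree_lt_card_of_eval_eq_zero L (algebraMap E K).injective h4 ?_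
    exact h5
  have h7 : L.coeff 1 = g 0 := by
    rw [hL, finsetSum_coeff, Finset.sum_eq_single_of_mem 0 (mem_range.2 (by omega))]
    · rw [coeff_C_mul, pow_zero, pow_one, coeff_X_one, mul_one]
    · intro i _ hi
      rw [coeff_C_mul, coeff_X_pow, if_neg, mul_zero]
      have : 1 < q ^ i := Nat.one_lt_pow hi (by omega)
      omega
  rw [h6, coeff_zero] at h7
  exact hg0 h7.symm

end frob

section gam

variable {E : Type} [Field E]

/-- the product of the `T^(q^l)` -/
lemma prod_TT {q : ℕ} (hneg : ∀ l : ℕ, (-1 : E) ^ (q ^ l) = -1) (j : ℕ) :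
    ∏ l ∈ range j, TT E q ^ (q ^ l) = HahnSeries.single (-((q : ℤ) ^ j - 1)) ((-1 : E) ^ j) := by
  induction j with
  | zero =>
    rw [Finset.prod_range_zero, pow_zero, pow_zero, sub_self, neg_zero]
    rfl
  | succ j ih =>
    rw [Finset.prod_range_succ, ih]
    unfold TT
    rw [HahnSeries.single_pow, HahnSeries.single_mul_single, hneg, ← pow_succ]
    congr 1
    rw [nsmul_eq_mul]
    push_cast
    ring_nf

variable {q : ℕ}

lemma TT_ne : TT E q ≠ 0 := by
  unfold TT
  exact HahnSeries.single_ne_zero (neg_ne_zero.2 one_ne_zero)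

/-- comparison of the finite level Gauss sums with the Gauss sums -/
lemma gj_gk {Fq : Type} [Field Fq] [Algebra Fq E] (hS : S_SBR) (hH : S_HTH) (hq : 2 ≤ q)
    (hneg : ∀ l : ℕ, (-1 : E) ^ (q ^ l) = -1) (w : Fq[X]) (θ : E) (i j : ℕ)
    (hδ : aeval (θ ^ (q ^ i)) (derivative w) ≠ 0) (hn : q ^ (j + 1) ≠ 0) :
    HahnSeries.single (-((q : ℤ) ^ (j + 1))) (1 : E) * gj q w θ j i =
      gk q w θ i * sb q (PowerSeries.expand (q ^ (j + 1)) hn (Hth q (θ ^ (q ^ i)))) := by
  obtain ⟨f, hf, hfX, hfC, hfi, -⟩ := hS E q hq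
  set t := θ ^ (q ^ i) with ht
  set δ := aeval t (derivative w) with hδ'
  have hT := TT_ne (E := E) (q := q)
  -- the finite product
  set Q : LaurentSeries E := ∏ l ∈ range (j + 1), (1 - algebraMap E (LaurentSeries E) t * (TT E q)⁻¹ ^ (q ^ l)) with hQ
  set R := sb q (PowerSeries.expand (q ^ (j + 1)) hn (Hth q t)) with hR
  have h1 : sb q (Hth q t) = Q * R := by
    rw [← hf, hth_iter hH hq t (j + 1) hn, map_mul, hf (PowerSeries.expand _ _ _), map_prod]
    congr 1
    refine Finset.prod_congr rfl fun l _ => ?_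
    rw [map_sub, map_one, map_mul, hfC, map_pow f, hfX]
  have hsb : sb q (Hth q t) ≠ 0 := by
    rw [← hf]
    intro h0
    have h2 : Hth q t = 0 := hfi (by rw [h0, map_zero])
    have h3 := (hH E q {t} hq).1
    rw [Multiset.map_singleton, Multiset.prod_singleton, h2, map_zero] at h3
    exact zero_ne_one h3
  have hQ0 : Q ≠ 0 := by
    intro h
    rw [h1, h, zero_mul] at hsb
    exact hsb rfl
  have hR0 : R ≠ 0 := by
    intro h
    rw [h1, h, mul_zero] at hsb
    exact hsb rfl
  have h2 : ∏ l ∈ range (j + 1), (TT E q ^ (q ^ l) - algebraMap E (LaurentSeries E) t) =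
      HahnSeries.single (-((q : ℤ) ^ (j + 1) - 1)) ((-1 : E) ^ (j + 1)) * Q := by
    rw [← prod_TT hneg, hQ, ← Finset.prod_mul_distrib]
    refine Finset.prod_congr rfl fun l _ => ?_
    rw [mul_sub, mul_one, inv_pow, mul_comm (algebraMap E (LaurentSeries E) t),
      mul_inv_cancel_left₀ (pow_ne_zero _ hT)]
  have hδ0 : algebraMap E (LaurentSeries E) δ ≠ 0 := by
    rw [Ne, map_eq_zero]
    exact hδ
  have h3 : HahnSeries.single (-1 : ℤ) (-δ⁻¹) * algebraMap E (LaurentSeries E) δ = HahnSeries.single (-1 : ℤ) (-1 : E) := by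
    have h4 : algebraMap E (LaurentSeries E) δ = HahnSeries.single (0 : ℤ) δ := by
      rw [HahnSeries.algebraMap_apply', PowerSeries.algebraMap_apply, HahnSeries.ofPowerSeries_C]
      rfl
    rw [h4, HahnSeries.single_mul_single, add_zero, neg_mul, inv_mul_cancel₀ hδ]
  have h5 : HahnSeries.single (-((q : ℤ) ^ (j + 1))) (1 : E) * (-1) ^ j =
      HahnSeries.single (-1 : ℤ) (-1 : E) * HahnSeries.single (-((q : ℤ) ^ (j + 1) - 1)) ((-1 : E) ^ (j + 1)) := by
    have h6 : ((-1 : LaurentSeries E) ^ j) = HahnSeries.single (0 : ℤ) ((-1 : E) ^ j) := by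
      have : HahnSeries.single (0 : ℤ) ((-1 : E) ^ j) = (HahnSeries.single (0 : ℤ) (-1 : E)) ^ j := by
        rw [HahnSeries.single_pow, smul_zero]
      rw [this]
      congr 1
      rw [HahnSeries.single_neg]
      rfl
    rw [h6, HahnSeries.single_mul_single, HahnSeries.single_mul_single]
    congr 1
    · ring_nf
    · rw [pow_succ]
      ring
  unfold gj gk gg
  rw [← ht, ← hδ', h1, h2, mul_div_assoc', h5]
  have hP : HahnSeries.single (-((q : ℤ) ^ (j + 1) - 1)) ((-1 : E) ^ (j + 1)) ≠ 0 :=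
    HahnSeries.single_ne_zero (pow_ne_zero _ (neg_ne_zero.2 one_ne_zero))
  rw [div_eq_iff (mul_ne_zero hδ0 (mul_ne_zero hP hQ0)), ← h3]
  generalize HahnSeries.single (-((q : ℤ) ^ (j + 1) - 1)) ((-1 : E) ^ (j + 1)) = A at hP ⊢
  generalize HahnSeries.single (-1 : ℤ) (-δ⁻¹) = B
  field_simp

end gam

section main

variable {E K : Type} [Field E] [Field K] [Algebra E K]

lemma Gam_scale [Fintype E] (q d k : ℕ) (θ : E) (T : K) (g g' : ℕ → K) (c : K) (hc : c ≠ 0)
    (h : ∀ i, c * g i = g' i) : Gam q d k θ T g = Gam q d k θ T g' := by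
  unfold Gam
  refine Finset.sum_congr rfl fun a _ => ?_
  congr 1
  have h1 : lam q d g' a = c * lam q d g a := by
    unfold lam
    rw [Finset.mul_sum]
    refine Finset.sum_congr rfl fun i _ => ?_
    rw [← h i]
    ring
  have h2 : nu q d θ T g' a = c * nu q d θ T g a := by
    unfold nu
    rw [Finset.mul_sum]
    refine Finset.sum_congr rfl fun i _ => ?_
    rw [← h i]
    ring
  rw [h1, h2, mul_div_mul_left _ _ hc]

end main

/-- **IN2** -/
theorem t_IN2 : S_SBR → S_FRB → S_HTH → S_GRL → S_IN2 := by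
  classical
  intro hS hF hH hG Fq E _ _ _ _ _ w θ q d k hD
  obtain ⟨-, -, hper, hδ, hδq, hrep⟩ := hF Fq E w θ q d hD
  have hq2 : 2 ≤ q := by
    rw [hD.hq]
    exact Fintype.one_lt_card
  have hneg : ∀ l : ℕ, (-1 : E) ^ (q ^ l) = -1 := neg_one_pow_q (E := E) hD.hq
  have hq0 : q ≠ 0 := by omega
  -- the relations
  have hrel : ∀ i, gk q w θ i ^ q =
      (algebraMap E (LaurentSeries E) (θ ^ (q ^ (i + 1))) - TT E q) * gk q w θ (i + 1) := by
    intro i
    have h1 := (hG Fq E q (aeval (θ ^ (q ^ i)) (derivative w)) (θ ^ (q ^ i)) hD.hq (hδ i)).2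
    have h2 : (θ ^ (q ^ i)) ^ q = θ ^ (q ^ (i + 1)) := by
      rw [← pow_mul, ← pow_succ]
    have h3 : (aeval (θ ^ (q ^ i)) (derivative w)) ^ q = aeval (θ ^ (q ^ (i + 1))) (derivative w) := by
      rw [hδq i, hδq (i + 1), ← pow_mul, ← pow_succ]
    rw [h2, h3] at h1
    exact h1
  have hgd : gk q w θ d = gk q w θ 0 := by
    unfold gk
    have := hper 0
    rw [zero_add] at this
    rw [this]
  have hg0 : gk q w θ 0 ≠ 0 := (hG Fq E q (aeval (θ ^ (q ^ 0)) (derivative w)) (θ ^ (q ^ 0)) hD.hq (hδ 0)).1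
  have hlam : ∀ a : E, a ≠ 0 → lam q d (gk q w θ) a ≠ 0 := by
    intro a ha
    exact lam_ne hD.hq hD.hd hD.hd1 θ (TT E q) (gk q w θ) (fun x => (hrep x).exists.imp fun p hp => hp.2) hg0 hrel hgd a ha
  -- the errors
  have hn : ∀ j, q ^ (j + 1) ≠ 0 := fun j => pow_ne_zero _ hq0
  set ε : ℕ → ℕ → LaurentSeries E := fun i j =>
    sb q (PowerSeries.expand (q ^ (j + 1)) (hn j) (Hth q (θ ^ (q ^ i)))) - 1 with hε
  have hεz : ∀ i, Tz (ε i) := by
    intro i M
    refine ⟨M.toNat, fun j hj => ?_⟩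
    have h1 := sb_tail hH hq2 (θ ^ (q ^ i)) (q ^ (j + 1)) (hn j)
    refine h1.mono ?_
    have h2 : j + 1 < q ^ (j + 1) := Nat.lt_pow_self hq2
    push_cast at h2 ⊢
    have h3 : ((j + 1 : ℕ) : ℤ) < ((q ^ (j + 1) : ℕ) : ℤ) := by exact_mod_cast h2
    push_cast at h3
    omega
  have hgam : ∀ j, Gam q d k θ (TT E q) (gj q w θ j) =
      Gam q d k θ (TT E q) (fun i => gk q w θ i + gk q w θ i * ε i j) := by
    intro j
    refine Gam_scale q d k θ (TT E q) _ _ (HahnSeries.single (-((q : ℤ) ^ (j + 1))) (1 : E))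
      (HahnSeries.single_ne_zero one_ne_zero) fun i => ?_
    rw [gj_gk hS hH hq2 hneg w θ i j (hδ i) (hn j)]
    simp only [hε]
    ring
  have hmain : Tz fun j => Gam q d k θ (TT E q) (gk q w θ) - Gam q d k θ (TT E q) (gj q w θ j) := by
    have h1 : (fun j => Gam q d k θ (TT E q) (gk q w θ) - Gam q d k θ (TT E q) (gj q w θ j)) =
        fun j => ∑ a ∈ univ.filter (fun a : E => a ≠ 0), algebraMap E (LaurentSeries E) ((a⁻¹) ^ k) *
          (nu q d θ (TT E q) (gk q w θ) a / lam q d (gk q w θ) a -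
            (nu q d θ (TT E q) (gk q w θ) a + ∑ i ∈ range d, algebraMap E (LaurentSeries E) (a ^ (q ^ i)) * gk q w θ i /
              (TT E q - algebraMap E (LaurentSeries E) (θ ^ (q ^ i))) * ε i j) /
            (lam q d (gk q w θ) a + ∑ i ∈ range d, algebraMap E (LaurentSeries E) (a ^ (q ^ i)) * gk q w θ i * ε i j)) := by
      funext j
      rw [hgam j]
      unfold Gam
      rw [← Finset.sum_sub_distrib]
      refine Finset.sum_congr (by congr) fun a _ => ?_
      rw [← mul_sub]
      congr 3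
      · unfold nu
        rw [← Finset.sum_add_distrib]
        refine Finset.sum_congr rfl fun i _ => ?_
        ring
      · unfold lam
        rw [← Finset.sum_add_distrib]
        refine Finset.sum_congr rfl fun i _ => ?_
        ring
    rw [h1]
    refine Tz.sum _ _ fun a ha => ?_
    rw [Finset.mem_filter] at ha
    refine Tz.const_mul _ (Tz.quot (hlam a ha.2) ?_ ?_)
    · exact Tz.sum _ _ fun i _ => (hεz i).const_mul _
    · exact Tz.sum _ _ fun i _ => (hεz i).const_mul _
  intro M
  obtain ⟨j₀, hj₀⟩ := hmain M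
  exact ⟨j₀, fun j hj i hi => hj₀ j hj i hi⟩

/-- **INF** -/
theorem t_INF : S_IN1 → S_IN2 → S_INF := by
  intro h1 h2 Fq E _ _ _ _ _ w θ q d k hD hk hk1 hk2 M
  obtain ⟨j₀, hj₀⟩ := h2 Fq E w θ q d k hD M
  refine ⟨d + j₀, fun J hJ i hi => ?_⟩
  have h3 := hj₀ (J - d) (by omega) i hi
  rw [h1 Fq E w θ q d k (J - d) hD hk hk1 hk2, show d + (J - d) = J by omega] at h3
  exact h3

end Run7.h824.GK
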