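import Pool.Agent.Run7.h400.GK.StmK

/-!
# GK: convergence in Laurent series
-/

set_option autoImplicit false

namespace Run7.h824.GK

open Finset

variable {E : Type} [Field E]

/-- order at least `M` -/
def Sm (M : ℤ) (x : LaurentSeries E) : Prop := ∀ i < M, x.coeff i = 0

lemma Sm.zero (M : ℤ) : Sm M (0 : LaurentSeries E) := fun _ _ => rfl

lemma Sm.mono {M N : ℤ} {x : LaurentSeries E} (hx : Sm N x) (h : M ≤ N) : Sm M x := fun i hi => hx i (hi.trans_le h)

lemma Sm.add {M : ℤ} {x y : LaurentSeries E} (hx : Sm M x) (hy : Sm M y) : Sm M (x + y) := by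
  intro i hi
  rw [HahnSeries.coeff_add, hx i hi, hy i hi, add_zero]

lemma Sm.neg {M : ℤ} {x : LaurentSeries E} (hx : Sm M x) : Sm M (-x) := by
  intro i hi
  rw [HahnSeries.coeff_neg, hx i hi, neg_zero]

lemma Sm.sub {M : ℤ} {x y : LaurentSeries E} (hx : Sm M x) (hy : Sm M y) : Sm M (x - y) := by
  rw [sub_eq_add_neg]
  exact hx.add hy.neg

lemma Sm.mul {M N : ℤ} {x y : LaurentSeries E} (hx : Sm M x) (hy : Sm N y) : Sm (M + N) (x * y) := by
  intro i hi
  rw [HahnSeries.coeff_mul]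
  refine Finset.sum_eq_zero fun ij hij => ?_
  rw [Finset.mem_antidiagonal] at hij
  by_cases h : ij.1 < M
  · rw [hx _ h, zero_mul]
  · rw [hy _ (by have := hij.2.2; omega), mul_zero]

lemma Sm.exists (x : LaurentSeries E) : ∃ N : ℤ, Sm N x := ⟨x.order, fun _ hi => HahnSeries.coeff_eq_zero_of_lt_order hi⟩

/-- convergence to zero -/
def Tz (x : ℕ → LaurentSeries E) : Prop := ∀ M : ℤ, ∃ j₀ : ℕ, ∀ j, j₀ ≤ j → Sm M (x j)

lemma Tz.zero : Tz (fun _ => (0 : LaurentSeries E)) := fun M => ⟨0, fun _ _ => Sm.zero M⟩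

lemma Tz.add {x y : ℕ → LaurentSeries E} (hx : Tz x) (hy : Tz y) : Tz fun j => x j + y j := by
  intro M
  obtain ⟨a, ha⟩ := hx M
  obtain ⟨b, hb⟩ := hy M
  exact ⟨max a b, fun j hj => (ha j (le_of_max_le_left hj)).add (hb j (le_of_max_le_right hj))⟩

lemma Tz.neg {x : ℕ → LaurentSeries E} (hx : Tz x) : Tz fun j => -x j := fun M =>
  (hx M).imp fun _ h j hj => (h j hj).neg

lemma Tz.sub {x y : ℕ → LaurentSeries E} (hx : Tz x) (hy : Tz y) : Tz fun j => x j - y j := by
  simp only [sub_eq_add_neg]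
  exact hx.add hy.neg

lemma Tz.const_mul {x : ℕ → LaurentSeries E} (c : LaurentSeries E) (hx : Tz x) : Tz fun j => c * x j := by
  intro M
  obtain ⟨N, hN⟩ := Sm.exists c
  obtain ⟨a, ha⟩ := hx (M - N)
  exact ⟨a, fun j hj => (hN.mul (ha j hj)).mono (by omega)⟩

lemma Tz.sum {ι : Type} (s : Finset ι) (x : ι → ℕ → LaurentSeries E) (h : ∀ i ∈ s, Tz (x i)) :
    Tz fun j => ∑ i ∈ s, x i j := by
  classical
  induction s using Finset.induction_on with
  | empty => simpa using Tz.zero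
  | insert i s hi ih =>
    simp only [Finset.sum_insert hi]
    exact (h i (Finset.mem_insert_self i s)).add (ih fun j hj => h j (Finset.mem_insert_of_mem hj))

lemma one_add {u : LaurentSeries E} (hu : Sm 1 u) : 1 + u ≠ 0 ∧ Sm 0 (1 + u)⁻¹ := by
  have h0 : (1 + u).coeff 0 = 1 := by
    rw [HahnSeries.coeff_add, hu 0 (by norm_num), add_zero]
    exact HahnSeries.coeff_single_same 0 1
  have hne : 1 + u ≠ 0 := by
    intro h
    rw [h] at h0
    exact zero_ne_one h0
  refine ⟨hne, ?_⟩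
  have h1 : (1 + u).order ≤ 0 := HahnSeries.order_le_of_coeff_ne_zero (by rw [h0]; exact one_ne_zero)
  have h2 := HahnSeries.order_mul hne (inv_ne_zero hne)
  rw [mul_inv_cancel₀ hne, HahnSeries.order_one] at h2
  intro i hi
  exact HahnSeries.coeff_eq_zero_of_lt_order (by omega)

/-- quotients are continuous -/
lemma Tz.quot {lam nu : LaurentSeries E} (hl : lam ≠ 0) {e f : ℕ → LaurentSeries E} (he : Tz e) (hf : Tz f) :
    Tz fun j => nu / lam - (nu + f j) / (lam + e j) := by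
  have hu : Tz fun j => lam⁻¹ * e j := he.const_mul _
  have hw : Tz fun j => lam⁻¹ * (nu * (lam⁻¹ * e j) - f j) := ((hu.const_mul nu).sub hf).const_mul _
  intro M
  obtain ⟨a, ha⟩ := hu 1
  obtain ⟨b, hb⟩ := hw M
  refine ⟨max a b, fun j hj => ?_⟩
  obtain ⟨h1, h2⟩ := one_add (ha j (le_of_max_le_left hj))
  have h3 := (hb j (le_of_max_le_right hj)).mul h2
  rw [add_zero] at h3
  have h4 : nu / lam - (nu + f j) / (lam + e j) =
      lam⁻¹ * (nu * (lam⁻¹ * e j) - f j) * (1 + lam⁻¹ * e j)⁻¹ := by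
    have h5 : lam + e j = lam * (1 + lam⁻¹ * e j) := by
      rw [mul_add, mul_one, mul_inv_cancel_left₀ hl]
    have h6 : 1 + lam⁻¹ * e j ≠ 0 := h1
    rw [h5]
    generalize lam⁻¹ * e j = u at h6 ⊢
    field_simp
    ring
  show Sm M (nu / lam - (nu + f j) / (lam + e j))
  rw [h4]
  exact h3

end Run7.h824.GK
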